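import Mathlib

/-!
# Minimal wall length of square tilings by distinct rectangles: the middle regime

If the wall length is below `2 n`, some tile has the full width `n` (or the full height). Let `H` be
the height of the rest. Then `W ≥ n + H` and
`H (W - n) = (m - 2) H² - ∑ (H - a_i) (H - b_i)`, the sum over the other tiles. As the shapes are
distinct, the sum is small; the case `H = 1` needs `n ≥ 1 + 2 + ⋯ + (m - 1)`.
-/

namespace Pool.Agent.Results.MP_88b750_co.MiddleRegime

open Set MeasureTheory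

/-- The closed tile with lower left corner `(x, y)`, width `a` and height `b`. -/
def rect (x y : ℝ) (a b : ℕ) : Set (ℝ × ℝ) := Icc x (x + a) ×ˢ Icc y (y + b)

/-- The `m` rectangles with integer side lengths tile `[0, n]²`. -/
structure IsTiling (n m : ℕ) (x y : Fin m → ℝ) (a b : Fin m → ℕ) : Prop where
  posA : ∀ i, 0 < a i
  posB : ∀ i, 0 < b i
  disj : ∀ i j, i ≠ j →
    Disjoint (interior (rect (x i) (y i) (a i) (b i))) (interior (rect (x j) (y j) (a j) (b j)))
  cover : ⋃ i, rect (x i) (y i) (a i) (b i) = Icc (0 : ℝ) n ×ˢ Icc (0 : ℝ) n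

/-- The unordered pairs `{a_i, b_i}` are pairwise distinct. -/
def Distinct {m : ℕ} (a b : Fin m → ℕ) : Prop := ∀ i j, i ≠ j → s(a i, b i) ≠ s(a j, b j)

/-- The internal wall length `∑ (a_i + b_i) - 2 n`. -/
def W (n : ℕ) {m : ℕ} (a b : Fin m → ℕ) : ℤ := ∑ i, ((a i : ℤ) + b i) - 2 * n

section

variable {n m : ℕ} {x y : Fin m → ℝ} {a b : Fin m → ℕ}

lemma interior_rect (x y : ℝ) (a b : ℕ) :
    interior (rect x y a b) = Ioo x (x + a) ×ˢ Ioo y (y + b) := by
  rw [rect, interior_prod_eq, interior_Icc, interior_Icc]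

lemma IsTiling.swap (hT : IsTiling n m x y a b) : IsTiling n m y x b a where
  posA := hT.posB
  posB := hT.posA
  disj i j hij := by
    have h := hT.disj i j hij
    rw [interior_rect, interior_rect, Set.disjoint_left] at h ⊢
    rintro ⟨u, v⟩ ⟨h1, h2⟩ ⟨h3, h4⟩
    exact @h (v, u) ⟨h2, h1⟩ ⟨h4, h3⟩
  cover := by
    have h := hT.cover
    ext ⟨u, v⟩
    have h' := Set.ext_iff.1 h (v, u)
    simp only [mem_iUnion, rect, mem_prod] at h' ⊢
    constructor
    · rintro ⟨i, h1, h2⟩
      have := h'.1 ⟨i, h2, h1⟩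
      exact ⟨this.2, this.1⟩
    · rintro ⟨h1, h2⟩
      obtain ⟨i, h3, h4⟩ := h'.2 ⟨h2, h1⟩
      exact ⟨i, h4, h3⟩

lemma Distinct.swap (h : Distinct a b) : Distinct b a := by
  intro i j hij
  rw [Sym2.eq_swap (a := b i), Sym2.eq_swap (a := b j)]
  exact h i j hij

lemma W_swap : W n b a = W n a b := by
  simp only [W, add_comm]

lemma IsTiling.bounds (hT : IsTiling n m x y a b) (i : Fin m) :
    0 ≤ x i ∧ x i + a i ≤ n ∧ 0 ≤ y i ∧ y i + b i ≤ n := by
  have h1 : (x i, y i) ∈ Icc (0 : ℝ) n ×ˢ Icc (0 : ℝ) n := by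
    rw [← hT.cover]
    exact mem_iUnion.2 ⟨i, ⟨le_rfl, by simp⟩, ⟨le_rfl, by simp⟩⟩
  have h2 : (x i + a i, y i + b i) ∈ Icc (0 : ℝ) n ×ˢ Icc (0 : ℝ) n := by
    rw [← hT.cover]
    exact mem_iUnion.2 ⟨i, ⟨by simp, le_rfl⟩, ⟨by simp, le_rfl⟩⟩
  exact ⟨h1.1.1, h2.1.2, h1.2.1, h2.2.2⟩

/-- `t` is not on a vertical wall. -/
def Generic (x : Fin m → ℝ) (a : Fin m → ℕ) (t : ℝ) : Prop := ∀ i, t ≠ x i ∧ t ≠ x i + a i

open Classical in
/-- The tiles met by the vertical line through `t`. -/
noncomputable def I (x : Fin m → ℝ) (a : Fin m → ℕ) (t : ℝ) : Finset (Fin m) :=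
  Finset.univ.filter fun i => x i < t ∧ t < x i + a i

lemma mem_I {t : ℝ} {i : Fin m} : i ∈ I x a t ↔ x i < t ∧ t < x i + a i := by
  classical
  simp [I]

lemma slice (hT : IsTiling n m x y a b) {t : ℝ} (ht : t ∈ Ioo (0 : ℝ) n) (hg : Generic x a t) :
    ∑ i ∈ I x a t, b i = n := by
  have h1 : volume (⋃ i ∈ I x a t, Ioo (y i) (y i + b i)) = ∑ i ∈ I x a t, (b i : ENNReal) := by
    rw [measure_biUnion_finset]
    · refine Finset.sum_congr rfl fun i _ => ?_
      rw [Real.volume_Ioo, add_sub_cancel_left, ENNReal.ofReal_natCast]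
    · intro i hi j hj hij
      have h := hT.disj i j hij
      rw [interior_rect, interior_rect, Set.disjoint_left] at h
      simp only [Function.onFun, Set.disjoint_left]
      intro s hs hs'
      exact @h (t, s) ⟨mem_I.1 hi, hs⟩ ⟨mem_I.1 hj, hs'⟩
    · intro i _; exact measurableSet_Ioo
  have h2 : volume (⋃ i ∈ I x a t, Ioo (y i) (y i + b i)) ≤ volume (Icc (0 : ℝ) n) := by
    apply measure_mono
    intro s hs
    simp only [mem_iUnion] at hs
    obtain ⟨i, _, hs⟩ := hs
    obtain ⟨_, _, h3, h4⟩ := hT.bounds i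
    exact ⟨by linarith [hs.1], by linarith [hs.2]⟩
  have h3 : volume (Icc (0 : ℝ) n) ≤ ∑ i ∈ I x a t, (b i : ENNReal) := by
    have h4 : Icc (0 : ℝ) n ⊆ ⋃ i ∈ I x a t, Icc (y i) (y i + b i) := by
      intro s hs
      have h5 : (t, s) ∈ ⋃ i, rect (x i) (y i) (a i) (b i) := by
        rw [hT.cover]; exact ⟨⟨ht.1.le, ht.2.le⟩, hs⟩
      obtain ⟨i, h6, h7⟩ := mem_iUnion.1 h5
      simp only [mem_iUnion]
      refine ⟨i, mem_I.2 ⟨lt_of_le_of_ne h6.1 (hg i).1.symm, lt_of_le_of_ne h6.2 (hg i).2⟩, h7⟩
    refine (measure_mono h4).trans ((measure_biUnion_finset_le _ _).trans (le_of_eq ?_))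
    refine Finset.sum_congr rfl fun i _ => ?_
    rw [Real.volume_Icc, add_sub_cancel_left, ENNReal.ofReal_natCast]
  rw [h1] at h2
  have h4 := le_antisymm h2 h3
  rw [Real.volume_Icc, sub_zero, ENNReal.ofReal_natCast] at h4
  exact_mod_cast h4

lemma avg (hT : IsTiling n m x y a b) (c : Fin m → ℝ) (K : ℝ)
    (h : ∀ t ∈ Ioo (0 : ℝ) n, Generic x a t → K ≤ ∑ i ∈ I x a t, c i) :
    K * n ≤ ∑ i, c i * a i := by
  classical
  have hF : ∀ t, ∑ i ∈ I x a t, c i
      = ∑ i, (Ioo (x i) (x i + a i)).indicator (fun _ => c i) t := by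
    intro t
    rw [I, Finset.sum_filter]
    refine Finset.sum_congr rfl fun i _ => ?_
    simp only [indicator, mem_Ioo]
  have hint : ∀ i, IntegrableOn ((Ioo (x i) (x i + a i)).indicator (fun _ => c i))
      (Ioo (0 : ℝ) n) volume := by
    intro i
    apply Integrable.indicator _ measurableSet_Ioo
    exact integrableOn_const (by simp) (by simp)
  have h1 : ∫ t in Ioo (0 : ℝ) n, ∑ i, (Ioo (x i) (x i + a i)).indicator (fun _ => c i) t
      = ∑ i, c i * a i := by
    rw [integral_finsetSum _ (fun i _ => hint i)]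
    refine Finset.sum_congr rfl fun i _ => ?_
    rw [setIntegral_indicator measurableSet_Ioo, setIntegral_const]
    obtain ⟨h3, h4, _, _⟩ := hT.bounds i
    have : Ioo (0 : ℝ) n ∩ Ioo (x i) (x i + a i) = Ioo (x i) (x i + a i) := by
      apply Set.inter_eq_self_of_subset_right
      exact Ioo_subset_Ioo h3 h4
    rw [this]
    simp [Measure.real, mul_comm]
  have h2 : ∫ _ in Ioo (0 : ℝ) n, K = K * n := by
    rw [setIntegral_const]
    simp [Measure.real, mul_comm]
  rw [← h1, ← h2]
  apply setIntegral_mono_ae_restrict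
  · exact integrableOn_const (by simp) (by simp)
  · exact integrable_finsetSum _ (fun i _ => hint i)
  · rw [Filter.EventuallyLE, ae_restrict_iff' measurableSet_Ioo]
    have hfin : Set.Finite (⋃ i, ({x i, x i + a i} : Set ℝ)) :=
      Set.finite_iUnion fun i => by simp
    have hae : ∀ᵐ t : ℝ, t ∉ ⋃ i, ({x i, x i + a i} : Set ℝ) :=
      measure_eq_zero_iff_ae_notMem.1 (hfin.measure_zero _)
    filter_upwards [hae] with t ht ht'
    have hg : Generic x a t := by
      intro i
      simp only [mem_iUnion, mem_insert_iff, mem_singleton_iff, not_exists, not_or] at ht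
      exact ht i
    rw [← hF]
    exact h t ht' hg

lemma exists_generic (hT : IsTiling n m x y a b) (j : Fin m) :
    ∃ t ∈ Ioo (0 : ℝ) n, Generic x a t ∧ j ∈ I x a t := by
  have hfin : Set.Finite (⋃ i, ({x i, x i + a i} : Set ℝ)) :=
    Set.finite_iUnion fun i => by simp
  have hpos : (0 : ℝ) < a j := by exact_mod_cast hT.posA j
  have hinf : (Ioo (x j) (x j + a j)).Infinite := Ioo_infinite (by linarith)
  obtain ⟨t, ht1, ht2⟩ := (hinf.sdiff hfin).nonempty
  obtain ⟨h3, h4, _, _⟩ := hT.bounds j
  refine ⟨t, ⟨by linarith [ht1.1], by linarith [ht1.2]⟩, ?_, mem_I.2 ht1⟩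
  intro i
  simp only [mem_iUnion, mem_insert_iff, mem_singleton_iff, not_exists, not_or] at ht2
  exact ht2 i

/-- A set of `k` positive integers has sum at least `k (k + 1) / 2`. -/
lemma sum_ge (T : Finset ℕ) : (∀ z ∈ T, 1 ≤ z) → T.card * (T.card + 1) ≤ 2 * ∑ z ∈ T, z := by
  induction T using Finset.induction_on_max with
  | empty => simp
  | insert a T hmax ih =>
    intro h
    have hnot : a ∉ T := fun ha => lt_irrefl _ (hmax a ha)
    rw [Finset.card_insert_of_notMem hnot, Finset.sum_insert hnot]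
    have h1 := ih fun z hz => h z (Finset.mem_insert_of_mem hz)
    have h2 : T.card + 1 ≤ a := by
      have hsub : T ⊆ Finset.Ico 1 a := fun z hz =>
        Finset.mem_Ico.2 ⟨h z (Finset.mem_insert_of_mem hz), hmax z hz⟩
      have h3 := Finset.card_le_card hsub
      rw [Nat.card_Ico] at h3
      have h4 := h a (Finset.mem_insert_self _ _)
      omega
    nlinarith

/-- A given shape is used at most once. -/
lemma once {a b : Fin m → ℕ} (hD : Distinct a b) (s : Finset (Fin m)) (σ : Sym2 ℕ) (w : ℤ)
    (hw : 0 ≤ w) : ∑ i ∈ s, (if s(a i, b i) = σ then w else 0) ≤ w := by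
  classical
  by_cases h : ∃ i ∈ s, s(a i, b i) = σ
  · obtain ⟨i, hi, he⟩ := h
    rw [Finset.sum_eq_single_of_mem i hi]
    · rw [if_pos he]
    · intro j _ hj
      rw [if_neg]
      intro hj'
      exact hD j i hj (hj'.trans he.symm)
  · push Not at h
    rw [Finset.sum_eq_zero fun i hi => if_neg (h i hi)]
    exact hw

/-- The term of a tile for `H ≥ 3`. -/
lemma term_le {H a b : ℤ} (hH : 3 ≤ H) (ha : 1 ≤ a) (hb : 1 ≤ b) (hbH : b ≤ H) :
    (H - a) * (H - b) ≤ H * (H - 2) - (2 * H - 3)
      + ((if a = 1 ∧ b = 1 then 2 * H - 2 else 0)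
        + (if (a = 1 ∧ b = 2) ∨ (a = 2 ∧ b = 1) then H - 1 else 0)
        + (if a = 2 ∧ b = 2 then 1 else 0)) := by
  have key : H * (H - 2) - (2 * H - 3) = (H - 1) * (H - 3) := by ring
  by_cases haH : H < a
  · have h1 : (H - a) * (H - b) ≤ 0 := mul_nonpos_of_nonpos_of_nonneg (by omega) (by omega)
    have h2 : 0 ≤ (H - 1) * (H - 3) := mul_nonneg (by omega) (by omega)
    have h3 : 0 ≤ (if a = 1 ∧ b = 1 then 2 * H - 2 else 0)
        + (if (a = 1 ∧ b = 2) ∨ (a = 2 ∧ b = 1) then H - 1 else 0)
        + (if a = 2 ∧ b = 2 then 1 else 0) := by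
      split_ifs <;> omega
    rw [key]; omega
  push Not at haH
  rcases eq_or_lt_of_le ha with h1 | h1
  · subst h1
    rcases eq_or_lt_of_le hb with h2 | h2
    · subst h2; simp; nlinarith
    · rcases eq_or_lt_of_le (show (2 : ℤ) ≤ b by omega) with h3 | h3
      · subst h3; simp; nlinarith
      · have : (H - 1) * (H - b) ≤ (H - 1) * (H - 3) :=
          mul_le_mul_of_nonneg_left (by omega) (by omega)
        have h5 : ¬ (b = 1) := by omega
        have h6 : ¬ (b = 2) := by omega
        simp only [h5, h6, and_false, if_false, or_self, add_zero, key]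
        simpa using this
  · rcases eq_or_lt_of_le (show (2 : ℤ) ≤ a by omega) with h2 | h2
    · subst h2
      rcases eq_or_lt_of_le hb with h3 | h3
      · subst h3; simp; nlinarith
      · rcases eq_or_lt_of_le (show (2 : ℤ) ≤ b by omega) with h4 | h4
        · subst h4; simp; nlinarith
        · have h5 : ¬ (b = 1) := by omega
          have h6 : ¬ (b = 2) := by omega
          have : (H - 2) * (H - b) ≤ (H - 2) * (H - 3) :=
            mul_le_mul_of_nonneg_left (by omega) (by omega)
          have h7 : (H - 2) * (H - 3) ≤ (H - 1) * (H - 3) :=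
            mul_le_mul_of_nonneg_right (by omega) (by omega)
          simp only [h5, h6, and_false, if_false, or_self, add_zero, key]
          exact this.trans h7
    · have h5 : ¬ (a = 1) := by omega
      have h6 : ¬ (a = 2) := by omega
      have : (H - a) * (H - b) ≤ (H - 3) * (H - 1) := by
        apply mul_le_mul <;> omega
      simp only [h5, h6, false_and, if_false, or_self, add_zero, key]
      linarith

lemma core (hT : IsTiling n m x y a b) (hD : Distinct a b) (hm : 7 ≤ m)
    (h1 : (m - 2) * (m - 1) ≤ 2 * n) (h2 : 2 * n < (m - 1) * m) {i0 : Fin m} (hi0 : a i0 = n) :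
    (n : ℤ) + 2 * (m - 2) ≤ W n a b := by
  classical
  by_contra hcon
  push Not at hcon
  have hn : 3 * (m - 2) ≤ n := by
    have : 6 * (m - 2) ≤ (m - 2) * (m - 1) := by
      rw [mul_comm 6]; exact Nat.mul_le_mul_left _ (by omega)
    omega
  have hnpos : 0 < n := by omega
  have hnR : (0 : ℝ) < n := by exact_mod_cast hnpos
  have hmem : ∀ t ∈ Ioo (0 : ℝ) n, i0 ∈ I x a t := by
    intro t ht
    obtain ⟨h3, h4, _, _⟩ := hT.bounds i0
    rw [hi0] at h4
    rw [mem_I, hi0]
    have : x i0 = 0 := le_antisymm (by linarith) h3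
    rw [this]
    exact ⟨ht.1, by linarith [ht.2]⟩
  -- the height of the other tiles
  have hb0 : b i0 ≤ n := by
    obtain ⟨_, _, h3, h4⟩ := hT.bounds i0
    have : (b i0 : ℝ) ≤ n := by linarith
    exact_mod_cast this
  obtain ⟨H, hH⟩ : ∃ H, b i0 + H = n := ⟨n - b i0, by omega⟩
  have hsl : ∀ t ∈ Ioo (0 : ℝ) n, Generic x a t → ∑ i ∈ (I x a t).erase i0, b i = H := by
    intro t ht hg
    have h3 := slice hT ht hg
    rw [← Finset.add_sum_erase _ _ (hmem t ht)] at h3
    omega
  have hbH : ∀ i, i ≠ i0 → b i ≤ H := by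
    intro i hi
    obtain ⟨t, ht, hg, hI⟩ := exists_generic hT i
    rw [← hsl t ht hg]
    exact Finset.single_le_sum (f := b) (fun _ _ => Nat.zero_le _)
      (Finset.mem_erase.2 ⟨hi, hI⟩)
  have hcard : (Finset.univ.erase i0).card = m - 1 := by
    rw [Finset.card_erase_of_mem (Finset.mem_univ _), Finset.card_univ, Fintype.card_fin]
  obtain ⟨j0, hj0⟩ : ∃ j, j ≠ i0 := by
    have : (Finset.univ.erase i0).Nonempty := Finset.card_pos.1 (by rw [hcard]; omega)
    obtain ⟨j, hj⟩ := this
    exact ⟨j, Finset.ne_of_mem_erase hj⟩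
  have hHpos : 0 < H := lt_of_lt_of_le (hT.posB j0) (hbH j0 hj0)
  -- the area of the other tiles
  have harea : ∑ i ∈ Finset.univ.erase i0, (a i : ℤ) * b i = n * H := by
    have e : ∀ t ∈ Ioo (0 : ℝ) n, Generic x a t →
        ∑ i ∈ I x a t, (if i = i0 then (0 : ℝ) else b i) = H := by
      intro t ht hg
      rw [← Finset.add_sum_erase _ _ (hmem t ht), if_pos rfl, zero_add, ← hsl t ht hg]
      push_cast
      exact Finset.sum_congr rfl fun i hi => if_neg (Finset.ne_of_mem_erase hi)
    have e1 := avg hT (fun i => if i = i0 then (0 : ℝ) else b i) H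
      (fun t ht hg => (e t ht hg).ge)
    have e2 := avg hT (fun i => - (if i = i0 then (0 : ℝ) else b i)) (-H)
      (fun t ht hg => by rw [Finset.sum_neg_distrib, e t ht hg])
    have e3 : ∑ i, (if i = i0 then (0 : ℝ) else b i) * a i = (H : ℝ) * n := by
      have : ∑ i, -(if i = i0 then (0 : ℝ) else b i) * a i
          = - ∑ i, (if i = i0 then (0 : ℝ) else b i) * a i := by
        rw [← Finset.sum_neg_distrib]
        exact Finset.sum_congr rfl fun i _ => by ring
      rw [this] at e2
      linarith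
    rw [← Finset.add_sum_erase _ _ (Finset.mem_univ i0), if_pos rfl, zero_mul, zero_add] at e3
    have e4 : ∑ i ∈ Finset.univ.erase i0, (a i : ℝ) * b i = n * H := by
      rw [mul_comm (n : ℝ), ← e3]
      refine Finset.sum_congr rfl fun i hi => ?_
      rw [if_neg (Finset.ne_of_mem_erase hi)]; ring
    exact_mod_cast e4
  have hWs : W n a b = ∑ i ∈ Finset.univ.erase i0, ((a i : ℤ) + b i) - H := by
    rw [W, ← Finset.add_sum_erase _ _ (Finset.mem_univ i0), hi0]
    have : (b i0 : ℤ) + H = n := by exact_mod_cast hH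
    linarith
  -- at least two tiles on each vertical line
  have hA : 2 * (n : ℝ) ≤ ∑ i, (a i : ℝ) := by
    have := avg hT (fun _ => 1) 2 (fun t ht hg => by
      rw [Finset.sum_const, nsmul_eq_mul, mul_one]
      have h3 := hsl t ht hg
      have h4 : ((I x a t).erase i0).Nonempty := by
        rw [Finset.nonempty_iff_ne_empty]
        intro he
        rw [he, Finset.sum_empty] at h3
        omega
      have h5 := Finset.card_pos.2 h4
      rw [Finset.card_erase_of_mem (hmem t ht)] at h5
      have : 2 ≤ (I x a t).card := by omega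
      exact_mod_cast this)
    simpa using this
  -- no other tile has full width
  have hfull : ∀ i, i ≠ i0 → a i < n := by
    intro i hi
    by_contra hai
    push Not at hai
    obtain ⟨h3, h4, _, _⟩ := hT.bounds i
    have hai' : (n : ℝ) ≤ a i := by exact_mod_cast hai
    have hmemi : ∀ t ∈ Ioo (0 : ℝ) n, i ∈ I x a t := by
      intro t ht
      rw [mem_I]
      exact ⟨by linarith [ht.1], by linarith [ht.2]⟩
    obtain ⟨j, hj1, hj2⟩ : ∃ j, j ≠ i0 ∧ j ≠ i := by
      have : ((Finset.univ.erase i0).erase i).Nonempty := by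
        apply Finset.card_pos.1
        rw [Finset.card_erase_of_mem (Finset.mem_erase.2 ⟨hi, Finset.mem_univ _⟩), hcard]
        omega
      obtain ⟨j, hj⟩ := this
      rw [Finset.mem_erase, Finset.mem_erase] at hj
      exact ⟨j, hj.2.1, hj.1⟩
    have hlt : b i < H := by
      obtain ⟨t, ht, hg, hI⟩ := exists_generic hT j
      have h5 := hsl t ht hg
      rw [← Finset.add_sum_erase _ _ (Finset.mem_erase.2 ⟨hi, hmemi t ht⟩)] at h5
      have h6 : b j ≤ ∑ k ∈ ((I x a t).erase i0).erase i, b k :=
        Finset.single_le_sum (f := b) (fun _ _ => Nat.zero_le _)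
          (Finset.mem_erase.2 ⟨hj2, Finset.mem_erase.2 ⟨hj1, hI⟩⟩)
      have := hT.posB j
      omega
    have hA3 : 3 * (n : ℝ) ≤ ∑ i, (a i : ℝ) := by
      have := avg hT (fun _ => 1) 3 (fun t ht hg => by
        rw [Finset.sum_const, nsmul_eq_mul, mul_one]
        have h5 := hsl t ht hg
        have h6 : (((I x a t).erase i0).erase i).Nonempty := by
          rw [Finset.nonempty_iff_ne_empty]
          intro he
          rw [← Finset.add_sum_erase _ _ (Finset.mem_erase.2 ⟨hi, hmemi t ht⟩), he,
            Finset.sum_empty] at h5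
          omega
        have h7 := Finset.card_pos.2 h6
        rw [Finset.card_erase_of_mem (Finset.mem_erase.2 ⟨hi, hmemi t ht⟩),
          Finset.card_erase_of_mem (hmem t ht)] at h7
        have : 3 ≤ (I x a t).card := by omega
        exact_mod_cast this)
      simpa using this
    have hB1 : (n : ℝ) ≤ ∑ i, (b i : ℝ) := by
      have := avg hT.swap (fun _ => 1) 1 (fun t ht hg => by
        rw [Finset.sum_const, nsmul_eq_mul, mul_one]
        have h5 := slice hT.swap ht hg
        have h6 : (I y b t).Nonempty := by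
          rw [Finset.nonempty_iff_ne_empty]
          intro he
          rw [he, Finset.sum_empty] at h5
          omega
        have h7 := Finset.card_pos.2 h6
        exact_mod_cast h7)
      simpa using this
    have h8 : (W n a b : ℝ) = ∑ i, (a i : ℝ) + ∑ i, (b i : ℝ) - 2 * n := by
      rw [W]; push_cast; rw [Finset.sum_add_distrib]
    have h9 : (W n a b : ℝ) < n + 2 * (m - 2) := by exact_mod_cast hcon
    have h10 : 3 * ((m : ℝ) - 2) ≤ n := by
      have : 3 * m ≤ n + 6 := by omega
      have : (3 : ℝ) * m ≤ n + 6 := by exact_mod_cast this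
      linarith
    have hm' : (7 : ℝ) ≤ m := by exact_mod_cast hm
    linarith
  -- the horizontal lines
  have hB2 : 2 * (H : ℝ) + b i0 ≤ ∑ i, (b i : ℝ) := by
    have := avg hT.swap (fun i => if i = i0 then 2 else 1) 2 (fun t ht hg => by
      have h5 := slice hT.swap ht hg
      by_cases hmem0 : i0 ∈ I y b t
      · calc (2 : ℝ) = if i0 = i0 then 2 else 1 := by simp
          _ ≤ ∑ i ∈ I y b t, if i = i0 then (2 : ℝ) else 1 :=
            Finset.single_le_sum (f := fun i => if i = i0 then (2 : ℝ) else 1)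
              (fun i _ => by split_ifs <;> norm_num) hmem0
      · have h6 : ∑ i ∈ I y b t, (if i = i0 then (2 : ℝ) else 1) = (I y b t).card := by
          rw [Finset.sum_congr rfl fun i hi => if_neg (fun h : i = i0 => hmem0 (h ▸ hi))]
          simp
        rw [h6]
        have h7 : 2 ≤ (I y b t).card := by
          by_contra hlt
          push Not at hlt
          have h8 : (I y b t).card = 0 ∨ (I y b t).card = 1 := by omega
          rcases h8 with h8 | h8
          · rw [Finset.card_eq_zero] at h8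
            rw [h8, Finset.sum_empty] at h5
            omega
          · obtain ⟨k, hk⟩ := Finset.card_eq_one.1 h8
            rw [hk, Finset.sum_singleton] at h5
            have hk0 : k ≠ i0 := by
              intro h; apply hmem0; rw [hk, h]; exact Finset.mem_singleton_self _
            have := hfull k hk0
            omega
        exact_mod_cast h7)
    have h6 : ∑ i, (if i = i0 then (2 : ℝ) else 1) * b i = b i0 + ∑ i, (b i : ℝ) := by
      rw [← Finset.add_sum_erase _ _ (Finset.mem_univ i0), if_pos rfl,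
        ← Finset.add_sum_erase _ (fun i => (b i : ℝ)) (Finset.mem_univ i0),
        Finset.sum_congr rfl fun i hi => by rw [if_neg (Finset.ne_of_mem_erase hi), one_mul]]
      ring
    rw [h6] at this
    have h7 : (b i0 : ℝ) + H = n := by exact_mod_cast hH
    linarith
  have hWH : (n : ℤ) + H ≤ W n a b := by
    have h8 : (W n a b : ℝ) = ∑ i, (a i : ℝ) + ∑ i, (b i : ℝ) - 2 * n := by
      rw [W]; push_cast; rw [Finset.sum_add_distrib]
    have h7 : (b i0 : ℝ) + H = n := by exact_mod_cast hH
    have : (n : ℝ) + H ≤ (W n a b : ℝ) := by rw [h8]; linarith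
    exact_mod_cast this
  have hHm : (H : ℤ) ≤ 2 * m - 5 := by linarith
  -- the identity
  have hid : ∑ i ∈ Finset.univ.erase i0, ((H : ℤ) - a i) * (H - b i)
      = (m - 2) * H ^ 2 - H * (W n a b - n) := by
    have : ∀ i, ((H : ℤ) - a i) * (H - b i) = H ^ 2 - H * ((a i : ℤ) + b i) + a i * b i := by
      intro i; ring
    rw [Finset.sum_congr rfl fun i _ => this i, Finset.sum_add_distrib, Finset.sum_sub_distrib,
      harea, ← Finset.mul_sum, Finset.sum_const, hcard, nsmul_eq_mul, Nat.cast_sub (by omega)]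
    have e : ∑ i ∈ Finset.univ.erase i0, ((a i : ℤ) + b i) = W n a b + H := by rw [hWs]; ring
    rw [e]
    push_cast
    ring
  have hHZ : (0 : ℤ) < H := by exact_mod_cast hHpos
  rcases Nat.lt_or_ge H 3 with hH3 | hH3
  · have hH12 : H = 1 ∨ H = 2 := by omega
    rcases hH12 with hH1 | hH2
    · -- `H = 1`
      subst hH1
      have hb1 : ∀ i ∈ Finset.univ.erase i0, b i = 1 := fun i hi =>
        le_antisymm (hbH i (Finset.ne_of_mem_erase hi)) (hT.posB i)
      have hinj : Set.InjOn a (Finset.univ.erase i0 : Finset (Fin m)) := by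
        intro i hi j hj hij
        by_contra hne
        apply hD i j hne
        rw [hij, hb1 i hi, hb1 j hj]
      have h3 := sum_ge ((Finset.univ.erase i0).image a) (by
        intro z hz
        obtain ⟨i, _, rfl⟩ := Finset.mem_image.1 hz
        exact hT.posA i)
      rw [Finset.card_image_of_injOn hinj, Finset.sum_image hinj, hcard] at h3
      have h4 : ∑ i ∈ Finset.univ.erase i0, a i = n := by
        have : ∑ i ∈ Finset.univ.erase i0, (a i : ℤ) = n := by
          have e := harea
          push_cast at e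
          rw [mul_one] at e
          rw [← e]
          exact Finset.sum_congr rfl fun i hi => by rw [hb1 i hi]; simp
        exact_mod_cast this
      rw [h4] at h3
      have : m - 1 + 1 = m := by omega
      rw [this] at h3
      omega
    · -- `H = 2`
      subst hH2
      have h3 : ∑ i ∈ Finset.univ.erase i0, (((2 : ℕ) : ℤ) - a i) * (((2 : ℕ) : ℤ) - b i) ≤ 1 := by
        refine le_trans (Finset.sum_le_sum (g := fun i => if s(a i, b i) = s(1, 1) then (1 : ℤ)
          else 0) fun i hi => ?_) (once hD _ _ 1 (by norm_num))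
        have h4 := hbH i (Finset.ne_of_mem_erase hi)
        have h5 := hT.posB i
        have h6 := hT.posA i
        have h7 : b i = 1 ∨ b i = 2 := by omega
        rcases h7 with h7 | h7
        · by_cases h8 : a i = 1
          · rw [h7, h8]; simp
          · rw [h7, if_neg]
            · have : (2 : ℤ) ≤ a i := by
                have : 2 ≤ a i := by omega
                exact_mod_cast this
              push_cast; linarith
            · intro h9
              rw [Sym2.eq_iff] at h9
              omega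
        · rw [h7, if_neg]
          · simp
          · intro h9
            rw [Sym2.eq_iff] at h9
            omega
      rw [hid] at h3
      push_cast at h3
      omega
  · -- `H ≥ 3`
    have hH3' : (3 : ℤ) ≤ H := by exact_mod_cast hH3
    have h3 : ∑ i ∈ Finset.univ.erase i0, ((H : ℤ) - a i) * (H - b i)
        ≤ (m - 1) * ((H : ℤ) * (H - 2) - (2 * H - 3)) + (3 * H - 2) := by
      have h4 : ∑ i ∈ Finset.univ.erase i0, ((H : ℤ) - a i) * (H - b i)
          ≤ ∑ i ∈ Finset.univ.erase i0, ((H : ℤ) * (H - 2) - (2 * H - 3)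
            + ((if s(a i, b i) = s(1, 1) then 2 * (H : ℤ) - 2 else 0)
            + (if s(a i, b i) = s(1, 2) then (H : ℤ) - 1 else 0)
            + (if s(a i, b i) = s(2, 2) then (1 : ℤ) else 0))) := by
        refine Finset.sum_le_sum fun i hi => ?_
        have h5 : ((b i : ℕ) : ℤ) ≤ H := by exact_mod_cast hbH i (Finset.ne_of_mem_erase hi)
        have h6 : (1 : ℤ) ≤ b i := by exact_mod_cast hT.posB i
        have h7 : (1 : ℤ) ≤ a i := by exact_mod_cast hT.posA i
        have h8 := term_le hH3' h7 h6 h5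
        refine h8.trans (le_of_eq ?_)
        have e1 : ((a i : ℤ) = 1 ∧ (b i : ℤ) = 1) ↔ s(a i, b i) = s(1, 1) := by
          rw [Sym2.eq_iff]; omega
        have e2 : (((a i : ℤ) = 1 ∧ (b i : ℤ) = 2) ∨ ((a i : ℤ) = 2 ∧ (b i : ℤ) = 1)) ↔
            s(a i, b i) = s(1, 2) := by
          rw [Sym2.eq_iff]; omega
        have e3 : ((a i : ℤ) = 2 ∧ (b i : ℤ) = 2) ↔ s(a i, b i) = s(2, 2) := by
          rw [Sym2.eq_iff]; omega
        simp only [e1, e2, e3]
      refine h4.trans ?_
      rw [Finset.sum_add_distrib, Finset.sum_add_distrib, Finset.sum_add_distrib,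
        Finset.sum_const, hcard, nsmul_eq_mul, Nat.cast_sub (by omega)]
      have g1 := once hD (Finset.univ.erase i0) s(1, 1) (2 * (H : ℤ) - 2) (by omega)
      have g2 := once hD (Finset.univ.erase i0) s(1, 2) ((H : ℤ) - 1) (by omega)
      have g3 := once hD (Finset.univ.erase i0) s(2, 2) (1 : ℤ) (by omega)
      push_cast
      linarith
    rw [hid] at h3
    -- final inequality
    have hWn : W n a b - n ≤ 2 * m - 5 := by linarith
    have h5 : (H : ℤ) * (W n a b - n) ≤ H * (2 * m - 5) :=
      mul_le_mul_of_nonneg_left hWn hHZ.le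
    have hm' : (7 : ℤ) ≤ m := by exact_mod_cast hm
    have h6 : ((m : ℤ) - 2) * H ^ 2 ≤ (m - 1) * ((H : ℤ) * (H - 2) - (2 * H - 3)) + (3 * H - 2)
        + H * (2 * m - 5) := by linarith
    nlinarith

end

/-! ### The tiling -/

/-- The abscissae of the cuts of the strip. -/
def cut : ℕ → ℕ
  | 0 => 3
  | j + 1 => cut j + (j + 2)

lemma two_cut (j : ℕ) : 2 * cut j = 6 + j * (j + 3) := by
  induction j with
  | zero => rfl
  | succ j ih => rw [cut]; nlinarith

/-- The cuts, the last one being `n`. -/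
def cut' (n m j : ℕ) : ℕ := if j < m - 4 then cut j else n

lemma cut_last {n m : ℕ} (hm : 7 ≤ m) (h1 : (m - 2) * (m - 1) ≤ 2 * n) :
    cut (m - 5) + (m - 3) ≤ n := by
  obtain ⟨k, rfl⟩ := Nat.exists_eq_add_of_le hm
  have h := two_cut (7 + k - 5)
  have e1 : 7 + k - 5 = k + 2 := by omega
  have e2 : 7 + k - 2 = k + 5 := by omega
  have e3 : 7 + k - 1 = k + 6 := by omega
  have e4 : 7 + k - 3 = k + 4 := by omega
  rw [e1] at h ⊢
  rw [e2, e3] at h1
  rw [e4]
  nlinarith

lemma cut'_step {n m : ℕ} (hm : 7 ≤ m) (h1 : (m - 2) * (m - 1) ≤ 2 * n) {j : ℕ}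
    (hj : j < m - 4) : cut' n m j + 2 ≤ cut' n m (j + 1) := by
  have hl := cut_last hm h1
  rw [cut', if_pos hj, cut']
  by_cases h : j + 1 < m - 4
  · rw [if_pos h, cut]; omega
  · rw [if_neg h]
    have : j = m - 5 := by omega
    rw [this]; omega

lemma cut'_mono {n m : ℕ} (hm : 7 ≤ m) (h1 : (m - 2) * (m - 1) ≤ 2 * n) {i j : ℕ}
    (hij : i ≤ j) (hj : j ≤ m - 4) : cut' n m i ≤ cut' n m j := by
  induction j with
  | zero => rw [Nat.le_zero.1 hij]
  | succ j ih =>
    rcases Nat.lt_or_ge j i with h | h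
    · rw [show i = j + 1 by omega]
    · have := cut'_step hm h1 (show j < m - 4 by omega)
      have := ih h (by omega)
      omega

/-- The tiles: lower left corner, width, height. -/
def tile (n m : ℕ) : ℕ → (ℕ × ℕ) × (ℕ × ℕ)
  | 0 => ((0, 0), (n, n - 2))
  | 1 => ((0, n - 2), (1, 1))
  | 2 => ((1, n - 2), (2, 1))
  | 3 => ((0, n - 1), (3, 1))
  | j + 4 => ((cut' n m j, n - 2), (cut' n m (j + 1) - cut' n m j, 2))

lemma exists_between (u : ℕ → ℝ) (N : ℕ) {t : ℝ} (h0 : u 0 ≤ t) (h1 : t ≤ u N) (hN : 0 < N) :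
    ∃ j < N, u j ≤ t ∧ t ≤ u (j + 1) := by
  induction N with
  | zero => exact absurd hN (lt_irrefl 0)
  | succ N ih =>
    rcases le_total (u N) t with h | h
    · exact ⟨N, Nat.lt_succ_self N, h, h1⟩
    · rcases Nat.eq_zero_or_pos N with h2 | h2
      · subst h2; exact ⟨0, one_pos, h0, h1⟩
      · obtain ⟨j, hj, h3⟩ := ih h h2
        exact ⟨j, Nat.lt_succ_of_lt hj, h3⟩

lemma exists_tiling {n m : ℕ} (hm : 7 ≤ m) (h1 : (m - 2) * (m - 1) ≤ 2 * n) :
    ∃ (x y : Fin m → ℝ) (a b : Fin m → ℕ), (IsTiling n m x y a b ∧ Distinct a b) ∧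
      ((n : ℤ) + 2 * (m - 2)) = W n a b := by
  have hn : 3 * (m - 2) ≤ n := by
    have : 6 * (m - 2) ≤ (m - 2) * (m - 1) := by
      rw [mul_comm 6]; exact Nat.mul_le_mul_left _ (by omega)
    omega
  have hstep : ∀ j, j < m - 4 → cut' n m j + 2 ≤ cut' n m (j + 1) := fun j hj =>
    cut'_step hm h1 hj
  have hmono : ∀ i j, i ≤ j → j ≤ m - 4 → cut' n m i ≤ cut' n m j := fun i j hij hj =>
    cut'_mono hm h1 hij hj
  have hc0 : cut' n m 0 = 3 := by rw [cut', if_pos (by omega), cut]
  have hcl : cut' n m (m - 4) = n := by rw [cut', if_neg (by omega)]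
  have hn2 : ((n - 2 : ℕ) : ℝ) = n - 2 := by rw [Nat.cast_sub (by omega)]; norm_num
  have hn1 : ((n - 1 : ℕ) : ℝ) = n - 1 := by rw [Nat.cast_sub (by omega)]; norm_num
  have hw : ∀ j, j < m - 4 → ((cut' n m (j + 1) - cut' n m j : ℕ) : ℝ)
      = cut' n m (j + 1) - cut' n m j := fun j hj => by
    rw [Nat.cast_sub (by have := hstep j hj; omega)]
  refine ⟨fun i => (tile n m i).1.1, fun i => (tile n m i).1.2, fun i => (tile n m i).2.1,
    fun i => (tile n m i).2.2, ⟨⟨?_, ?_, ?_, ?_⟩, ?_⟩, ?_⟩
  · rintro ⟨i, hi⟩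
    match i, hi with
    | 0, _ => simp only [tile]; omega
    | 1, _ => simp [tile]
    | 2, _ => simp [tile]
    | 3, _ => simp [tile]
    | j + 4, hi => simp only [tile]; have := hstep j (by omega); omega
  · rintro ⟨i, hi⟩
    match i, hi with
    | 0, _ => simp only [tile]; omega
    | 1, _ => simp [tile]
    | 2, _ => simp [tile]
    | 3, _ => simp [tile]
    | j + 4, hi => simp [tile]
  · -- disjointness, for `i < j`
    have key : ∀ i j : ℕ, i < j → j < m → Disjoint
        (Ioo ((tile n m i).1.1 : ℝ) ((tile n m i).1.1 + (tile n m i).2.1) ×ˢ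
          Ioo ((tile n m i).1.2 : ℝ) ((tile n m i).1.2 + (tile n m i).2.2))
        (Ioo ((tile n m j).1.1 : ℝ) ((tile n m j).1.1 + (tile n m j).2.1) ×ˢ
          Ioo ((tile n m j).1.2 : ℝ) ((tile n m j).1.2 + (tile n m j).2.2)) := by
      intro i j hij hj
      rw [Set.disjoint_left]
      rintro ⟨u, v⟩ ⟨⟨a1, a2⟩, ⟨a3, a4⟩⟩ ⟨⟨b1, b2⟩, ⟨b3, b4⟩⟩
      match i, j, hij, hj with
      | 0, 1, _, _ => simp only [tile, hn2, hn1] at *; push_cast at *; linarith
      | 0, 2, _, _ => simp only [tile, hn2, hn1] at *; push_cast at *; linarith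
      | 0, 3, _, _ => simp only [tile, hn2, hn1] at *; push_cast at *; linarith
      | 0, j + 4, _, _ => simp only [tile, hn2, hn1] at *; push_cast at *; linarith
      | 1, 2, _, _ => simp only [tile, hn2, hn1] at *; push_cast at *; linarith
      | 1, 3, _, _ => simp only [tile, hn2, hn1] at *; push_cast at *; linarith
      | 2, 3, _, _ => simp only [tile, hn2, hn1] at *; push_cast at *; linarith
      | 1, j + 4, _, hj =>
        simp only [tile] at *; push_cast at *
        have := hmono 0 j (Nat.zero_le _) (by omega)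
        rw [hc0] at this
        have : (3 : ℝ) ≤ cut' n m j := by exact_mod_cast this
        linarith
      | 2, j + 4, _, hj =>
        simp only [tile] at *; push_cast at *
        have := hmono 0 j (Nat.zero_le _) (by omega)
        rw [hc0] at this
        have : (3 : ℝ) ≤ cut' n m j := by exact_mod_cast this
        linarith
      | 3, j + 4, _, hj =>
        simp only [tile] at *; push_cast at *
        have := hmono 0 j (Nat.zero_le _) (by omega)
        rw [hc0] at this
        have : (3 : ℝ) ≤ cut' n m j := by exact_mod_cast this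
        linarith
      | i + 4, j + 4, hij, hj =>
        simp only [tile] at *
        have := hmono (i + 1) j (by omega) (by omega)
        have : (cut' n m (i + 1) : ℝ) ≤ cut' n m j := by exact_mod_cast this
        rw [hw i (by omega)] at a2
        linarith
    rintro ⟨i, hi⟩ ⟨j, hj⟩ hij
    rw [interior_rect, interior_rect]
    have hne : i ≠ j := fun h => hij (Fin.ext h)
    rcases Nat.lt_or_gt_of_ne hne with h | h
    · exact key i j h hj
    · exact (key j i h hi).symm
  · -- covering
    have hnR : (21 : ℝ) ≤ n + 6 := by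
      have : 21 ≤ n + 6 := by omega
      exact_mod_cast this
    ext ⟨u, v⟩
    simp only [mem_iUnion, rect, mem_prod, mem_Icc]
    constructor
    · rintro ⟨⟨i, hi⟩, ⟨a1, a2⟩, ⟨a3, a4⟩⟩
      match i, hi with
      | 0, _ =>
        simp only [tile, hn2, hn1] at *; push_cast at *
        refine ⟨⟨?_, ?_⟩, ?_, ?_⟩ <;> linarith
      | 1, _ =>
        simp only [tile, hn2, hn1] at *; push_cast at *
        refine ⟨⟨?_, ?_⟩, ?_, ?_⟩ <;> linarith
      | 2, _ =>
        simp only [tile, hn2, hn1] at *; push_cast at *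
        refine ⟨⟨?_, ?_⟩, ?_, ?_⟩ <;> linarith
      | 3, _ =>
        simp only [tile, hn2, hn1] at *; push_cast at *
        refine ⟨⟨?_, ?_⟩, ?_, ?_⟩ <;> linarith
      | j + 4, hj =>
        simp only [tile, hn2, hw j (by omega)] at *; push_cast at *
        have h3 := hmono (j + 1) (m - 4) (by omega) le_rfl
        rw [hcl] at h3
        have h4 : (cut' n m (j + 1) : ℝ) ≤ n := by exact_mod_cast h3
        have h5 : (0 : ℝ) ≤ cut' n m j := Nat.cast_nonneg _
        refine ⟨⟨?_, ?_⟩, ?_, ?_⟩ <;> linarith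
    · rintro ⟨⟨h2, h3⟩, ⟨h4, h5⟩⟩
      rcases le_total v (n - 2) with hv | hv
      · refine ⟨⟨0, by omega⟩, ?_⟩
        simp only [tile, hn2]; push_cast
        refine ⟨⟨?_, ?_⟩, ?_, ?_⟩ <;> linarith
      rcases le_total u 3 with hu | hu
      · rcases le_total v (n - 1) with hv1 | hv1
        · rcases le_total u 1 with hu1 | hu1
          · refine ⟨⟨1, by omega⟩, ?_⟩
            simp only [tile, hn2]; push_cast
            refine ⟨⟨?_, ?_⟩, ?_, ?_⟩ <;> linarith
          · refine ⟨⟨2, by omega⟩, ?_⟩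
            simp only [tile, hn2]; push_cast
            refine ⟨⟨?_, ?_⟩, ?_, ?_⟩ <;> linarith
        · refine ⟨⟨3, by omega⟩, ?_⟩
          simp only [tile, hn1]; push_cast
          refine ⟨⟨?_, ?_⟩, ?_, ?_⟩ <;> linarith
      · obtain ⟨j, hj, h6, h7⟩ := exists_between (fun j => (cut' n m j : ℝ)) (m - 4) (t := u)
          (by simp only [hc0]; exact_mod_cast hu) (by simp only [hcl]; exact h3) (by omega)
        refine ⟨⟨j + 4, by omega⟩, ?_⟩
        simp only [tile, hn2, hw j hj]; push_cast
        refine ⟨⟨?_, ?_⟩, ?_, ?_⟩ <;> linarith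
  · -- distinct shapes
    have hlast := cut_last hm h1
    have hwidth : ∀ j, j < m - 4 → cut' n m (j + 1) - cut' n m j =
        if j < m - 5 then j + 2 else n - cut (m - 5) := by
      intro j hj
      rw [cut', cut', if_pos hj]
      by_cases h : j < m - 5
      · rw [if_pos (show j + 1 < m - 4 by omega), if_pos h, cut]; omega
      · rw [if_neg (show ¬ (j + 1 < m - 4) by omega), if_neg h, show j = m - 5 by omega]
    have key : ∀ i j : ℕ, i < j → j < m →
        s((tile n m i).2.1, (tile n m i).2.2) ≠ s((tile n m j).2.1, (tile n m j).2.2) := by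
      intro i j hij hj h
      rw [Sym2.eq_iff] at h
      match i, j, hij, hj with
      | 0, 1, _, _ => simp only [tile] at h; omega
      | 0, 2, _, _ => simp only [tile] at h; omega
      | 0, 3, _, _ => simp only [tile] at h; omega
      | 0, j + 4, _, _ => simp only [tile] at h; omega
      | 1, 2, _, _ => simp [tile] at h
      | 1, 3, _, _ => simp [tile] at h
      | 2, 3, _, _ => simp [tile] at h
      | 1, j + 4, _, hj => simp only [tile] at h; omega
      | 2, j + 4, _, hj =>
        simp only [tile, hwidth j (by omega)] at h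
        split_ifs at h <;> omega
      | 3, j + 4, _, hj => simp only [tile] at h; omega
      | i + 4, j + 4, hij, hj =>
        simp only [tile, hwidth j (by omega), hwidth i (by omega)] at h
        split_ifs at h <;> omega
    rintro ⟨i, hi⟩ ⟨j, hj⟩ hij
    have hne : i ≠ j := fun h => hij (Fin.ext h)
    rcases Nat.lt_or_gt_of_ne hne with h | h
    · exact key i j h hj
    · exact (key j i h hi).symm
  · -- the wall length
    rw [W, Fin.sum_univ_eq_sum_range (fun i => ((tile n m i).2.1 : ℤ) + (tile n m i).2.2)]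
    have hm4 : m = 4 + (m - 4) := by omega
    rw [hm4, Finset.sum_range_add]
    have e1 : ∑ i ∈ Finset.range (m - 4), (((tile n m (4 + i)).2.1 : ℤ)
        + (tile n m (4 + i)).2.2) = n - 3 + 2 * (m - 4) := by
      have e2 : ∀ i ∈ Finset.range (m - 4), (((tile n m (4 + i)).2.1 : ℤ)
          + (tile n m (4 + i)).2.2) = ((cut' n m (i + 1) : ℤ) - cut' n m i) + 2 := by
        intro i hi
        rw [add_comm 4 i]
        simp only [tile]
        rw [Nat.cast_sub (by have := hstep i (Finset.mem_range.1 hi); omega)]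
        push_cast; ring
      rw [Finset.sum_congr rfl e2, Finset.sum_add_distrib,
        Finset.sum_range_sub (fun i => (cut' n m i : ℤ)), hc0, hcl, Finset.sum_const,
        Finset.card_range, nsmul_eq_mul, Nat.cast_sub (by omega)]
      push_cast; ring
    rw [← hm4, e1]
    simp only [Finset.sum_range_succ, Finset.sum_range_zero, tile]
    rw [Nat.cast_sub (show 2 ≤ n by omega)]
    push_cast
    ring

/-- For `m ≥ 7` and `T_{m-2} ≤ n < T_{m-1}` the minimum of the wall length over all admissible
tilings of `[0, n]²` by `m` tiles exists and is `n + 2 (m - 2)`. -/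
theorem result (m n : ℕ) (hm : 7 ≤ m) (h1 : (m - 2) * (m - 1) / 2 ≤ n)
    (h2 : n < (m - 1) * m / 2) :
    IsLeast {w : ℤ | ∃ (x y : Fin m → ℝ) (a b : Fin m → ℕ),
      (IsTiling n m x y a b ∧ Distinct a b) ∧ w = W n a b} (n + 2 * (m - 2)) := by
  have hev1 : 2 ∣ (m - 2) * (m - 1) := by
    have : m - 1 = (m - 2) + 1 := by omega
    rw [this]; exact (Nat.even_mul_succ_self _).two_dvd
  have hev2 : 2 ∣ (m - 1) * m := by
    have : (m - 1) * m = (m - 1) * ((m - 1) + 1) := by congr 1; omega
    rw [this]; exact (Nat.even_mul_succ_self _).two_dvd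
  have h1' : (m - 2) * (m - 1) ≤ 2 * n := by omega
  have h2' : 2 * n < (m - 1) * m := by omega
  constructor
  · exact exists_tiling hm h1'
  · rintro w ⟨x, y, a, b, ⟨hT, hD⟩, rfl⟩
    by_cases hA : ∃ i, a i = n
    · obtain ⟨i, hi⟩ := hA
      exact core hT hD hm h1' h2' hi
    by_cases hB : ∃ i, b i = n
    · obtain ⟨i, hi⟩ := hB
      rw [← W_swap]
      exact core hT.swap hD.swap hm h1' h2' hi
    push Not at hA hB
    have hn : 3 * (m - 2) ≤ n := by
      have : 6 * (m - 2) ≤ (m - 2) * (m - 1) := by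
        rw [mul_comm 6]; exact Nat.mul_le_mul_left _ (by omega)
      omega
    have two : ∀ {x y : Fin m → ℝ} {a b : Fin m → ℕ}, IsTiling n m x y a b → (∀ i, b i ≠ n) →
        2 * (n : ℝ) ≤ ∑ i, (a i : ℝ) := by
      intro x y a b hT hb
      have := avg hT (fun _ => 1) 2 (fun t ht hg => by
        rw [Finset.sum_const, nsmul_eq_mul, mul_one]
        have h5 := slice hT ht hg
        have h7 : 2 ≤ (I x a t).card := by
          by_contra hlt
          push Not at hlt
          have h8 : (I x a t).card = 0 ∨ (I x a t).card = 1 := by omega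
          rcases h8 with h8 | h8
          · rw [Finset.card_eq_zero] at h8
            rw [h8, Finset.sum_empty] at h5
            omega
          · obtain ⟨k, hk⟩ := Finset.card_eq_one.1 h8
            rw [hk, Finset.sum_singleton] at h5
            exact hb k h5
        exact_mod_cast h7)
      simpa using this
    have hSA := two hT hB
    have hSB := two hT.swap hA
    have h8 : (W n a b : ℝ) = ∑ i, (a i : ℝ) + ∑ i, (b i : ℝ) - 2 * n := by
      rw [W]; push_cast; rw [Finset.sum_add_distrib]
    have h9 : 2 * (n : ℝ) ≤ (W n a b : ℝ) := by rw [h8]; linarith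
    have h10 : 2 * (n : ℤ) ≤ W n a b := by exact_mod_cast h9
    omega

end Pool.Agent.Results.MP_88b750_co.MiddleRegime
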